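import Mathlib

namespace Pool.Agent.Results.MP_232fda_co.MixedDeletions

/-- `c` is a majority C-colouring of `G` with `k` (nonempty) colour classes: every vertex has at
least half of its neighbours in its own class. -/
def IsMajority {V : Type*} (G : SimpleGraph V) {k : ℕ} (c : V → Fin k) : Prop :=
  Function.Surjective c ∧
    ∀ v, (G.neighborSet v).ncard ≤ 2 * {w | G.Adj v w ∧ c w = c v}.ncard

/-- The majority C-chromatic number: the largest number of classes. -/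
noncomputable def mc {V : Type*} (G : SimpleGraph V) : ℕ :=
  sSup {k : ℕ | ∃ c : V → Fin k, IsMajority G c}

/-- `G` has an edge, and deleting any edge changes `mc`. -/
def EdgeCritical {V : Type*} (G : SimpleGraph V) : Prop :=
  G.edgeSet.Nonempty ∧ ∀ e ∈ G.edgeSet, mc (G.deleteEdges {e}) ≠ mc G

/-! ### The graph -/

/-- Neighbour lists. -/
def nb (a : Fin 25) : List (Fin 25) :=
  ([[1, 2, 3, 4], [0, 2, 5, 6], [0, 1, 7, 8],
    [0, 9, 16], [0, 9, 17], [1, 10, 18], [1, 11, 19], [2, 12, 20], [2, 12, 21],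
    [3, 4, 13], [5, 13, 14], [6, 14, 15], [7, 8, 15],
    [9, 10, 22], [10, 11, 23], [11, 12, 24],
    [3], [4], [5], [6], [7], [8], [13], [14], [15]] : List (List (Fin 25))).getD a.1 []

theorem nb_symm : ∀ a b : Fin 25, b ∈ nb a → a ∈ nb b := by decide +kernel

theorem nb_irrefl : ∀ a : Fin 25, a ∉ nb a := by decide +kernel

theorem nb_nodup : ∀ a : Fin 25, (nb a).Nodup := by decide +kernel

/-- The graph. -/
def G : SimpleGraph (Fin 25) where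
  Adj a b := b ∈ nb a
  symm := ⟨fun a b h => nb_symm a b h⟩
  loopless := ⟨fun a h => nb_irrefl a h⟩

/-- Neighbour lists after deleting the edge `xy`. -/
def del (x y a : Fin 25) : List (Fin 25) :=
  (nb a).filter fun b => !((a == x && b == y) || (a == y && b == x))

theorem del_nodup (x y a : Fin 25) : (del x y a).Nodup := (nb_nodup a).filter _

theorem adj_del (x y a b : Fin 25) : (G.deleteEdges {s(x, y)}).Adj a b ↔ b ∈ del x y a := by
  rw [SimpleGraph.deleteEdges_adj]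
  simp only [del, List.mem_filter, Set.mem_singleton_iff, Sym2.eq_iff, G]
  simp
  intro _
  tauto

section general

variable {V : Type*}

theorem ncard_list [DecidableEq V] (l : List V) (h : l.Nodup) : {w | w ∈ l}.ncard = l.length := by
  have : {w | w ∈ l} = (l.toFinset : Set V) := by ext; simp
  rw [this, Set.ncard_coe_finset, List.toFinset_card_of_nodup h]

theorem valid_iff [DecidableEq V] (H : SimpleGraph V) (N : V → List V) (h : ∀ a b, H.Adj a b ↔ b ∈ N a)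
    (hn : ∀ a, (N a).Nodup) {k : ℕ} (c : V → Fin k) :
    (∀ v, (H.neighborSet v).ncard ≤ 2 * {w | H.Adj v w ∧ c w = c v}.ncard) ↔
      ∀ v, (N v).length ≤ 2 * ((N v).filter (fun w => c w = c v)).length := by
  apply forall_congr'
  intro v
  have h1 : H.neighborSet v = {w | w ∈ N v} := by
    ext w; rw [SimpleGraph.mem_neighborSet, h]; rfl
  have h2 : {w | H.Adj v w ∧ c w = c v} = {w | w ∈ (N v).filter (fun w => c w = c v)} := by
    ext w
    simp [h]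
  rw [h1, h2, ncard_list _ (hn v), ncard_list _ ((hn v).filter _)]

/-- Indicator of different colours. -/
def dl {k : ℕ} (a b : Fin k) : ℕ := if a = b then 0 else 1

theorem cut_list {k : ℕ} (c : V → Fin k) (x : Fin k) (l : List V) :
    (l.map fun w => dl x (c w)).sum + (l.filter (fun w => c w = x)).length = l.length := by
  induction l with
  | nil => rfl
  | cons a l ih =>
    simp only [List.map_cons, List.sum_cons, List.filter_cons, List.length_cons]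
    by_cases e : c a = x
    · have h0 : dl x (c a) = 0 := by simp [dl, e]
      rw [h0]
      simp only [e, decide_true, if_true, List.length_cons]
      omega
    · have : dl x (c a) = 1 := by
        unfold dl; rw [if_neg]; exact fun h => e h.symm
      simp only [this, e, decide_false, Bool.false_eq_true, if_false]
      omega

theorem cut_le {k : ℕ} (c : V → Fin k) (N : V → List V)
    (h : ∀ v, (N v).length ≤ 2 * ((N v).filter (fun w => c w = c v)).length) (v : V) :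
    2 * ((N v).map fun w => dl (c v) (c w)).sum ≤ (N v).length := by
  have h1 := cut_list c (c v) (N v)
  have h2 := h v
  omega

theorem bdd [Fintype V] (H : SimpleGraph V) :
    BddAbove {k : ℕ | ∃ c : V → Fin k, IsMajority H c} := by
  refine ⟨Fintype.card V, ?_⟩
  rintro k ⟨c, hc, -⟩
  simpa using Fintype.card_le_of_surjective c hc

theorem le_mc [Fintype V] (H : SimpleGraph V) {k : ℕ} (c : V → Fin k) (hc : IsMajority H c) :
    k ≤ mc H := le_csSup (bdd H) ⟨c, hc⟩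

theorem mc_le [Fintype V] (H : SimpleGraph V) (m : ℕ)
    (h : ∀ (k : ℕ) (c : V → Fin k), IsMajority H c → k ≤ m) : mc H ≤ m := by
  unfold mc
  rcases Set.eq_empty_or_nonempty {k : ℕ | ∃ c : V → Fin k, IsMajority H c} with e | e
  · rw [e]; simp
  · exact csSup_le e (by rintro k ⟨c, hc⟩; exact h k c hc)

end general

/-! ### Colourings with six classes -/

/-- Colourings after the deletion of an edge. -/
def tab : List (ℕ × ℕ × List ℕ) :=
  [(0, 3, [0, 0, 0, 1, 2, 3, 4, 5, 5, 2, 3, 4, 5, 2, 3, 4, 1, 2, 3, 4, 5, 5, 2, 3, 4]),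
   (3, 16, [0, 0, 0, 1, 1, 2, 3, 4, 4, 1, 2, 3, 4, 2, 3, 4, 5, 1, 2, 3, 4, 4, 2, 3, 4]),
   (0, 4, [0, 0, 0, 1, 2, 3, 4, 5, 5, 1, 3, 4, 5, 1, 3, 4, 1, 2, 3, 4, 5, 5, 1, 3, 4]),
   (4, 17, [0, 0, 0, 1, 1, 2, 3, 4, 4, 1, 2, 3, 4, 2, 3, 4, 1, 5, 2, 3, 4, 4, 2, 3, 4]),
   (1, 5, [0, 0, 0, 1, 1, 2, 3, 4, 4, 1, 5, 3, 4, 5, 5, 3, 1, 1, 2, 3, 4, 4, 5, 5, 3]),
   (5, 18, [0, 0, 0, 1, 1, 2, 3, 4, 4, 1, 2, 3, 4, 2, 3, 4, 1, 1, 5, 3, 4, 4, 2, 3, 4]),
   (1, 6, [0, 0, 0, 1, 1, 2, 3, 4, 4, 1, 2, 5, 4, 2, 5, 5, 1, 1, 2, 3, 4, 4, 2, 5, 5]),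
   (6, 19, [0, 0, 0, 1, 1, 2, 3, 4, 4, 1, 2, 3, 4, 2, 3, 4, 1, 1, 2, 5, 4, 4, 2, 3, 4]),
   (2, 7, [0, 0, 0, 1, 1, 2, 3, 4, 5, 1, 2, 3, 5, 2, 3, 5, 1, 1, 2, 3, 4, 5, 2, 3, 5]),
   (7, 20, [0, 0, 0, 1, 1, 2, 3, 4, 4, 1, 2, 3, 4, 2, 3, 4, 1, 1, 2, 3, 5, 4, 2, 3, 4]),
   (2, 8, [0, 0, 0, 1, 1, 2, 3, 4, 5, 1, 2, 3, 4, 2, 3, 4, 1, 1, 2, 3, 4, 5, 2, 3, 4]),
   (8, 21, [0, 0, 0, 1, 1, 2, 3, 4, 4, 1, 2, 3, 4, 2, 3, 4, 1, 1, 2, 3, 4, 5, 2, 3, 4]),
   (3, 9, [0, 0, 0, 1, 2, 3, 4, 5, 5, 2, 3, 4, 5, 3, 4, 5, 1, 2, 3, 4, 5, 5, 3, 4, 5]),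
   (4, 9, [0, 0, 0, 1, 2, 3, 4, 5, 5, 1, 3, 4, 5, 3, 4, 5, 1, 2, 3, 4, 5, 5, 3, 4, 5]),
   (5, 10, [0, 0, 0, 1, 1, 2, 3, 4, 4, 1, 5, 3, 4, 5, 5, 3, 1, 1, 2, 3, 4, 4, 5, 5, 3]),
   (6, 11, [0, 0, 0, 1, 1, 2, 3, 4, 4, 1, 2, 5, 4, 2, 5, 5, 1, 1, 2, 3, 4, 4, 2, 5, 5]),
   (7, 12, [0, 0, 0, 1, 1, 2, 3, 4, 5, 1, 2, 3, 5, 2, 3, 5, 1, 1, 2, 3, 4, 5, 2, 3, 5]),
   (8, 12, [0, 0, 0, 1, 1, 2, 3, 4, 5, 1, 2, 3, 4, 2, 3, 4, 1, 1, 2, 3, 4, 5, 2, 3, 4]),
   (9, 13, [0, 0, 0, 1, 1, 2, 3, 4, 4, 1, 2, 3, 4, 5, 2, 3, 1, 1, 2, 3, 4, 4, 5, 2, 3]),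
   (10, 13, [0, 0, 0, 1, 1, 2, 3, 4, 4, 1, 2, 3, 4, 5, 3, 4, 1, 1, 2, 3, 4, 4, 5, 3, 4]),
   (13, 22, [0, 0, 0, 1, 1, 2, 3, 4, 4, 1, 2, 3, 4, 2, 3, 4, 1, 1, 2, 3, 4, 4, 5, 3, 4]),
   (10, 14, [0, 0, 0, 1, 1, 2, 3, 4, 4, 1, 2, 3, 4, 2, 5, 3, 1, 1, 2, 3, 4, 4, 2, 5, 3]),
   (11, 14, [0, 0, 0, 1, 1, 2, 3, 4, 4, 1, 2, 3, 4, 2, 5, 4, 1, 1, 2, 3, 4, 4, 2, 5, 4]),
   (14, 23, [0, 0, 0, 1, 1, 2, 3, 4, 4, 1, 2, 3, 4, 2, 3, 4, 1, 1, 2, 3, 4, 4, 2, 5, 4]),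
   (11, 15, [0, 0, 0, 1, 1, 2, 3, 4, 4, 1, 2, 3, 4, 2, 3, 5, 1, 1, 2, 3, 4, 4, 2, 3, 5]),
   (12, 15, [0, 0, 0, 1, 1, 2, 3, 4, 4, 1, 2, 3, 4, 2, 3, 5, 1, 1, 2, 3, 4, 4, 2, 3, 5]),
   (15, 24, [0, 0, 0, 1, 1, 2, 3, 4, 4, 1, 2, 3, 4, 2, 3, 4, 1, 1, 2, 3, 4, 4, 2, 3, 5])]

/-- The colouring for the edge `ab`. -/
def col (a b : Fin 25) (v : Fin 25) : Fin 6 :=
  match tab.find? (fun r => (r.1 == a.1 && r.2.1 == b.1) || (r.1 == b.1 && r.2.1 == a.1)) with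
  | some r => Fin.ofNat 6 (r.2.2.getD v.1 0)
  | none => 0

theorem col_ok : ∀ a : Fin 25, ∀ b ∈ nb a, (a < 3 ∧ b < 3) ∨
    ((∀ y : Fin 6, ∃ v, col a b v = y) ∧ ∀ v, (del a b v).length ≤
      2 * ((del a b v).filter (fun w => col a b w = col a b v)).length) := by
  decide +kernel

/-- A colouring of the whole graph. -/
def col0 (v : Fin 25) : Fin 5 :=
  Fin.ofNat 5 ([0, 0, 0, 1, 1, 2, 3, 4, 4, 1, 2, 3, 4, 2, 3, 4, 1, 1, 2, 3, 4, 4, 2, 3, 4].getD v.1 0)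

theorem col0_ok : (∀ y : Fin 5, ∃ v, col0 v = y) ∧ ∀ v, (nb v).length ≤
      2 * ((nb v).filter (fun w => col0 w = col0 v)).length := by
  decide +kernel

/-! ### Upper bounds -/

section upper

variable {k : ℕ}

theorem dl_le (a b : Fin k) : dl a b ≤ 1 := by unfold dl; split_ifs <;> omega

theorem dl_comm (a b : Fin k) : dl a b = dl b a := by
  unfold dl
  by_cases h : a = b
  · simp [h]
  · rw [if_neg h, if_neg (fun e => h e.symm)]

theorem dl_tri (a b c : Fin k) : dl a c ≤ dl a b + dl b c := by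
  unfold dl
  by_cases h : a = b
  · subst h; simp
  · rw [if_neg h]; split_ifs <;> omega

theorem dl_zero {a b : Fin k} (h : dl a b = 0) : a = b := by
  unfold dl at h; by_contra e; rw [if_neg e] at h; omega

/-- Indicator of a colour outside `S`. -/
def nu (S : Finset (Fin k)) (a : Fin k) : ℕ := if a ∈ S then 0 else 1

theorem nu_le_dl {S : Finset (Fin k)} {a b : Fin k} (hb : b ∈ S) : nu S a ≤ dl b a := by
  unfold nu dl
  by_cases h : b = a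
  · subst h; simp [hb]
  · rw [if_neg h]; split_ifs <;> omega

theorem one_le {S : Finset (Fin k)} {a x : Fin k} (ha : a ∉ S) : 1 ≤ dl a x + nu S x := by
  unfold nu dl
  by_cases h : a = x
  · subst h; simp [ha]
  · rw [if_neg h]; omega

theorem card_insert_dl {S : Finset (Fin k)} {a b : Fin k} (hb : b ∈ S) :
    (insert a S).card ≤ dl a b + S.card := by
  unfold dl
  by_cases h : a = b
  · subst h; simp [hb]
  · rw [if_neg h]; have := Finset.card_insert_le a S; omega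

/-- Indicator of a colour inside `S`. -/
def inn (S : Finset (Fin k)) (a : Fin k) : ℕ := if a ∈ S then 1 else 0

theorem inn_cases (S : Finset (Fin k)) (a : Fin k) : inn S a = 0 ∨ inn S a = 1 := by
  unfold inn; split_ifs <;> simp

theorem dl_cases (a b : Fin k) : dl a b = 0 ∨ dl a b = 1 := by
  unfold dl; split_ifs <;> simp

theorem one_le' (S : Finset (Fin k)) (a x : Fin k) : 1 ≤ dl a x + nu S x + inn S a := by
  by_cases h : a ∈ S
  · have : inn S a = 1 := by unfold inn; rw [if_pos h]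
    omega
  · have := one_le (x := x) h; omega

theorem inn_le (S : Finset (Fin k)) (a b : Fin k) : inn S a ≤ inn S b + dl a b := by
  unfold inn dl
  by_cases h : a = b
  · subst h; simp
  · rw [if_neg h]; split_ifs <;> omega

theorem card3 (S : Finset (Fin k)) (u v t : Fin k) :
    ∃ α β γ : ℕ, (insert u (insert v (insert t S))).card ≤ S.card + α + β + γ ∧
      α + inn S t ≤ 1 ∧ β + inn S v ≤ 1 ∧ γ + inn S u ≤ 1 ∧
      β ≤ dl v t ∧ γ ≤ dl u v ∧ γ ≤ dl u t := by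
  refine ⟨if t ∈ S then 0 else 1, if v ∈ insert t S then 0 else 1,
    if u ∈ insert v (insert t S) then 0 else 1, ?_, ?_, ?_, ?_, ?_, ?_, ?_⟩
  · rw [Finset.card_insert_eq_ite, Finset.card_insert_eq_ite, Finset.card_insert_eq_ite]
    split_ifs <;> omega
  · unfold inn; split_ifs <;> omega
  · unfold inn
    by_cases h : v ∈ S
    · simp [h]
    · rw [if_neg h]; split_ifs <;> omega
  · unfold inn
    by_cases h : u ∈ S
    · simp [h]
    · rw [if_neg h]; split_ifs <;> omega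
  · unfold dl
    by_cases h : v = t
    · simp [h]
    · rw [if_neg h]; split_ifs <;> omega
  · unfold dl
    by_cases h : u = v
    · simp [h]
    · rw [if_neg h]; split_ifs <;> omega
  · unfold dl
    by_cases h : u = t
    · simp [h]
    · rw [if_neg h]; split_ifs <;> omega

theorem arithB {s iu iv it duv dut dvt α β γ X Y Z n : ℕ} (hs : s ≤ 4) (hs1 : 1 ≤ s)
    (h : s + X + Y + Z ≤ 5) (hn : n ≤ s + α + β + γ) (h2 : α + it ≤ 1) (h3 : β + iv ≤ 1)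
    (h4 : γ + iu ≤ 1) (h5 : β ≤ dvt) (h6 : γ ≤ duv) (h7 : γ ≤ dut)
    (fX : duv + dut ≤ X + 2 * iu) (fY : duv + dvt ≤ Y + 2 * iv) (fZ : dut + dvt ≤ Z + 2 * it)
    (i1 : iu ≤ iv + duv) (i2 : iv ≤ iu + duv) (i3 : iu ≤ it + dut) (i4 : it ≤ iu + dut)
    (i5 : iv ≤ it + dvt) (i6 : it ≤ iv + dvt) (t1 : dut ≤ duv + dvt) (t2 : duv ≤ dut + dvt)
    (t3 : dvt ≤ duv + dut) (a1 : iu = 0 ∨ iu = 1) (a2 : iv = 0 ∨ iv = 1) (a3 : it = 0 ∨ it = 1)
    (a4 : duv = 0 ∨ duv = 1) (a5 : dut = 0 ∨ dut = 1) (a6 : dvt = 0 ∨ dvt = 1) : n ≤ 5 := by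
  rcases a1 with rfl | rfl <;> rcases a2 with rfl | rfl <;> rcases a3 with rfl | rfl <;>
    rcases a4 with rfl | rfl <;> rcases a5 with rfl | rfl <;> rcases a6 with rfl | rfl <;> omega

theorem arithA {s iu iv it duv dut dvt α β γ X Y Z n : ℕ} (hs : s ≤ 4) (hs1 : 1 ≤ s)
    (h : s + X + Y + Z ≤ 5) (hn : n ≤ s + α + β + γ) (h2 : α + it ≤ 1) (h3 : β + iv ≤ 1)
    (h4 : γ + iu ≤ 1) (h5 : β ≤ dvt) (h6 : γ ≤ duv) (h7 : γ ≤ dut)
    (fX : 1 + dut ≤ X + 2 * iu) (fY : 1 + dvt ≤ Y + 2 * iv) (fZ : dut + dvt ≤ Z + 2 * it)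
    (i1 : iu ≤ iv + duv) (i2 : iv ≤ iu + duv) (i3 : iu ≤ it + dut) (i4 : it ≤ iu + dut)
    (i5 : iv ≤ it + dvt) (i6 : it ≤ iv + dvt) (t1 : dut ≤ duv + dvt) (t2 : duv ≤ dut + dvt)
    (t3 : dvt ≤ duv + dut) (a1 : iu = 0 ∨ iu = 1) (a2 : iv = 0 ∨ iv = 1) (a3 : it = 0 ∨ it = 1)
    (a4 : duv = 0 ∨ duv = 1) (a5 : dut = 0 ∨ dut = 1) (a6 : dvt = 0 ∨ dvt = 1) : n ≤ 4 := by
  rcases a1 with rfl | rfl <;> rcases a2 with rfl | rfl <;> rcases a3 with rfl | rfl <;>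
    rcases a4 with rfl | rfl <;> rcases a5 with rfl | rfl <;> rcases a6 with rfl | rfl <;> omega

/-- The core of the argument for `G`. -/
theorem coreB {S : Finset (Fin k)} {u v t x1 x2 y1 y2 z1 z2 : Fin k} (hS : S.card ≤ 4)
    (hS1 : 1 ≤ S.card)
    (h : S.card + nu S x1 + nu S x2 + nu S y1 + nu S y2 + nu S z1 + nu S z2 ≤ 5)
    (hu : dl u v + dl u t + dl u x1 + dl u x2 ≤ 2) (hv : dl v u + dl v t + dl v y1 + dl v y2 ≤ 2)
    (ht : dl t u + dl t v + dl t z1 + dl t z2 ≤ 2) :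
    (insert u (insert v (insert t S))).card ≤ 5 := by
  obtain ⟨α, β, γ, h1, h2, h3, h4, h5, h6, h7⟩ := card3 S u v t
  have c1 := dl_comm v u
  have c2 := dl_comm t u
  have c3 := dl_comm t v
  have fX : dl u v + dl u t ≤ (nu S x1 + nu S x2) + 2 * inn S u := by
    have := one_le' S u x1; have := one_le' S u x2; omega
  have fY : dl u v + dl v t ≤ (nu S y1 + nu S y2) + 2 * inn S v := by
    have := one_le' S v y1; have := one_le' S v y2; omega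
  have fZ : dl u t + dl v t ≤ (nu S z1 + nu S z2) + 2 * inn S t := by
    have := one_le' S t z1; have := one_le' S t z2; omega
  have i1 := inn_le S u v
  have i2 := inn_le S v u
  have i3 := inn_le S u t
  have i4 := inn_le S t u
  have i5 := inn_le S v t
  have i6 := inn_le S t v
  have t1 := dl_tri u v t
  have t2 := dl_tri u t v
  have t3 := dl_tri v u t
  rw [c1] at i2 t3
  rw [c2] at i4
  rw [c3] at i6 t2
  exact arithB hS hS1 (by omega) h1 h2 h3 h4 h5 h6 h7 fX fY fZ i1 i2 i3 i4 i5 i6 t1 t2 t3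
    (inn_cases S u) (inn_cases S v) (inn_cases S t) (dl_cases u v) (dl_cases u t) (dl_cases v t)

/-- The core of the argument for `G` minus the edge `uv`. -/
theorem coreA {S : Finset (Fin k)} {u v t x1 x2 y1 y2 z1 z2 : Fin k} (hS : S.card ≤ 4)
    (hS1 : 1 ≤ S.card)
    (h : S.card + nu S x1 + nu S x2 + nu S y1 + nu S y2 + nu S z1 + nu S z2 ≤ 5)
    (hu : dl u t + dl u x1 + dl u x2 ≤ 1) (hv : dl v t + dl v y1 + dl v y2 ≤ 1)
    (ht : dl t u + dl t v + dl t z1 + dl t z2 ≤ 2) :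
    (insert u (insert v (insert t S))).card ≤ 4 := by
  obtain ⟨α, β, γ, h1, h2, h3, h4, h5, h6, h7⟩ := card3 S u v t
  have c1 := dl_comm v u
  have c2 := dl_comm t u
  have c3 := dl_comm t v
  have fX : 1 + dl u t ≤ (nu S x1 + nu S x2) + 2 * inn S u := by
    have := one_le' S u x1; have := one_le' S u x2; omega
  have fY : 1 + dl v t ≤ (nu S y1 + nu S y2) + 2 * inn S v := by
    have := one_le' S v y1; have := one_le' S v y2; omega
  have fZ : dl u t + dl v t ≤ (nu S z1 + nu S z2) + 2 * inn S t := by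
    have := one_le' S t z1; have := one_le' S t z2; omega
  have i1 := inn_le S u v
  have i2 := inn_le S v u
  have i3 := inn_le S u t
  have i4 := inn_le S t u
  have i5 := inn_le S v t
  have i6 := inn_le S t v
  have t1 := dl_tri u v t
  have t2 := dl_tri u t v
  have t3 := dl_tri v u t
  rw [c1] at i2 t3
  rw [c2] at i4
  rw [c3] at i6 t2
  exact arithA hS hS1 (by omega) h1 h2 h3 h4 h5 h6 h7 fX fY fZ i1 i2 i3 i4 i5 i6 t1 t2 t3
    (inn_cases S u) (inn_cases S v) (inn_cases S t) (dl_cases u v) (dl_cases u t) (dl_cases v t)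

/-- The hub colours of the tree part. -/
def hub (c : Fin 25 → Fin k) : Finset (Fin k) := {c 9, c 10, c 11, c 12}

theorem hpart (c : Fin 25 → Fin k) (N : Fin 25 → List (Fin 25)) (hN : ∀ v, 3 ≤ v → N v = nb v)
    (h : ∀ v, 2 * ((N v).map fun w => dl (c v) (c w)).sum ≤ (N v).length) :
    (hub c).card ≤ 4 ∧ 1 ≤ (hub c).card ∧
      (hub c).card + nu (hub c) (c 3) + nu (hub c) (c 4) + nu (hub c) (c 5) + nu (hub c) (c 6) +
        nu (hub c) (c 7) + nu (hub c) (c 8) ≤ 5 ∧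
      ∀ v, c v ∈ hub c ∨ c v = c 0 ∨ c v = c 1 ∨ c v = c 2 := by
  have h' : ∀ v, 3 ≤ v → 2 * ((nb v).map fun w => dl (c v) (c w)).sum ≤ (nb v).length := by
    intro v hv; have := h v; rwa [hN v hv] at this
  have g3 : 2 * (dl (c 3) (c 0) + (dl (c 3) (c 9) + (dl (c 3) (c 16) + 0))) ≤ 3 := h' 3 (by decide)
  have g4 : 2 * (dl (c 4) (c 0) + (dl (c 4) (c 9) + (dl (c 4) (c 17) + 0))) ≤ 3 := h' 4 (by decide)
  have g5 : 2 * (dl (c 5) (c 1) + (dl (c 5) (c 10) + (dl (c 5) (c 18) + 0))) ≤ 3 :=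
    h' 5 (by decide)
  have g6 : 2 * (dl (c 6) (c 1) + (dl (c 6) (c 11) + (dl (c 6) (c 19) + 0))) ≤ 3 :=
    h' 6 (by decide)
  have g7 : 2 * (dl (c 7) (c 2) + (dl (c 7) (c 12) + (dl (c 7) (c 20) + 0))) ≤ 3 :=
    h' 7 (by decide)
  have g8 : 2 * (dl (c 8) (c 2) + (dl (c 8) (c 12) + (dl (c 8) (c 21) + 0))) ≤ 3 :=
    h' 8 (by decide)
  have g9 : 2 * (dl (c 9) (c 3) + (dl (c 9) (c 4) + (dl (c 9) (c 13) + 0))) ≤ 3 := h' 9 (by decide)
  have g10 : 2 * (dl (c 10) (c 5) + (dl (c 10) (c 13) + (dl (c 10) (c 14) + 0))) ≤ 3 :=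
    h' 10 (by decide)
  have g11 : 2 * (dl (c 11) (c 6) + (dl (c 11) (c 14) + (dl (c 11) (c 15) + 0))) ≤ 3 :=
    h' 11 (by decide)
  have g12 : 2 * (dl (c 12) (c 7) + (dl (c 12) (c 8) + (dl (c 12) (c 15) + 0))) ≤ 3 :=
    h' 12 (by decide)
  have g13 : 2 * (dl (c 13) (c 9) + (dl (c 13) (c 10) + (dl (c 13) (c 22) + 0))) ≤ 3 :=
    h' 13 (by decide)
  have g14 : 2 * (dl (c 14) (c 10) + (dl (c 14) (c 11) + (dl (c 14) (c 23) + 0))) ≤ 3 :=
    h' 14 (by decide)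
  have g15 : 2 * (dl (c 15) (c 11) + (dl (c 15) (c 12) + (dl (c 15) (c 24) + 0))) ≤ 3 :=
    h' 15 (by decide)
  have l16 : c 16 = c 3 := dl_zero (by
    have : 2 * (dl (c 16) (c 3) + 0) ≤ 1 := h' 16 (by decide)
    omega)
  have l17 : c 17 = c 4 := dl_zero (by
    have : 2 * (dl (c 17) (c 4) + 0) ≤ 1 := h' 17 (by decide)
    omega)
  have l18 : c 18 = c 5 := dl_zero (by
    have : 2 * (dl (c 18) (c 5) + 0) ≤ 1 := h' 18 (by decide)
    omega)
  have l19 : c 19 = c 6 := dl_zero (by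
    have : 2 * (dl (c 19) (c 6) + 0) ≤ 1 := h' 19 (by decide)
    omega)
  have l20 : c 20 = c 7 := dl_zero (by
    have : 2 * (dl (c 20) (c 7) + 0) ≤ 1 := h' 20 (by decide)
    omega)
  have l21 : c 21 = c 8 := dl_zero (by
    have : 2 * (dl (c 21) (c 8) + 0) ≤ 1 := h' 21 (by decide)
    omega)
  have l22 : c 22 = c 13 := dl_zero (by
    have : 2 * (dl (c 22) (c 13) + 0) ≤ 1 := h' 22 (by decide)
    omega)
  have l23 : c 23 = c 14 := dl_zero (by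
    have : 2 * (dl (c 23) (c 14) + 0) ≤ 1 := h' 23 (by decide)
    omega)
  have l24 : c 24 = c 15 := dl_zero (by
    have : 2 * (dl (c 24) (c 15) + 0) ≤ 1 := h' 24 (by decide)
    omega)
  have m9 : c 9 ∈ hub c := by simp [hub]
  have m10 : c 10 ∈ hub c := by simp [hub]
  have m11 : c 11 ∈ hub c := by simp [hub]
  have m12 : c 12 ∈ hub c := by simp [hub]
  have n3 : nu (hub c) (c 3) ≤ dl (c 9) (c 3) := nu_le_dl m9
  have n4 : nu (hub c) (c 4) ≤ dl (c 9) (c 4) := nu_le_dl m9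
  have n5 : nu (hub c) (c 5) ≤ dl (c 10) (c 5) := nu_le_dl m10
  have n6 : nu (hub c) (c 6) ≤ dl (c 11) (c 6) := nu_le_dl m11
  have n7 : nu (hub c) (c 7) ≤ dl (c 12) (c 7) := nu_le_dl m12
  have n8 : nu (hub c) (c 8) ≤ dl (c 12) (c 8) := nu_le_dl m12
  have t1 : dl (c 9) (c 10) ≤ dl (c 9) (c 13) + dl (c 13) (c 10) := dl_tri _ _ _
  have t2 : dl (c 10) (c 11) ≤ dl (c 10) (c 14) + dl (c 14) (c 11) := dl_tri _ _ _
  have t3 : dl (c 11) (c 12) ≤ dl (c 11) (c 15) + dl (c 15) (c 12) := dl_tri _ _ _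
  have e1 := dl_comm (c 13) (c 9)
  have e2 := dl_comm (c 13) (c 10)
  have e3 := dl_comm (c 14) (c 10)
  have e4 := dl_comm (c 14) (c 11)
  have e5 := dl_comm (c 15) (c 11)
  have e6 := dl_comm (c 15) (c 12)
  have q1 : ({c 11, c 12} : Finset (Fin k)).card ≤ dl (c 11) (c 12) + 1 := by
    have := card_insert_dl (S := {c 12}) (a := c 11) (b := c 12) (by simp)
    simpa using this
  have q2 : ({c 10, c 11, c 12} : Finset (Fin k)).card ≤ dl (c 10) (c 11) +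
      ({c 11, c 12} : Finset (Fin k)).card := card_insert_dl (by simp)
  have q3 : (hub c).card ≤ dl (c 9) (c 10) + ({c 10, c 11, c 12} : Finset (Fin k)).card :=
    card_insert_dl (by simp)
  have b1 := dl_le (c 9) (c 10)
  have b2 := dl_le (c 10) (c 11)
  have b3 := dl_le (c 11) (c 12)
  have w : ∀ a d s l : Fin k, 2 * (dl a d + (dl a s + (dl a l + 0))) ≤ 3 → a = d ∨ a = s := by
    intro a d s l hh
    rcases dl_cases a d with x | x
    · exact Or.inl (dl_zero x)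
    · exact Or.inr (dl_zero (by omega))
  have k3 := w _ _ _ _ g3
  have k4 := w _ _ _ _ g4
  have k5 := w _ _ _ _ g5
  have k6 := w _ _ _ _ g6
  have k7 := w _ _ _ _ g7
  have k8 := w _ _ _ _ g8
  have k13 := w _ _ _ _ g13
  have k14 := w _ _ _ _ g14
  have k15 := w _ _ _ _ g15
  refine ⟨by omega, Finset.card_pos.2 ⟨_, m9⟩, by omega, ?_⟩
  have p3 : c 3 ∈ hub c ∨ c 3 = c 0 ∨ c 3 = c 1 ∨ c 3 = c 2 := by
    rcases k3 with x | x
    · exact Or.inr (Or.inl x)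
    · left; rw [x]; exact m9
  have p4 : c 4 ∈ hub c ∨ c 4 = c 0 ∨ c 4 = c 1 ∨ c 4 = c 2 := by
    rcases k4 with x | x
    · exact Or.inr (Or.inl x)
    · left; rw [x]; exact m9
  have p5 : c 5 ∈ hub c ∨ c 5 = c 0 ∨ c 5 = c 1 ∨ c 5 = c 2 := by
    rcases k5 with x | x
    · exact Or.inr (Or.inr (Or.inl x))
    · left; rw [x]; exact m10
  have p6 : c 6 ∈ hub c ∨ c 6 = c 0 ∨ c 6 = c 1 ∨ c 6 = c 2 := by
    rcases k6 with x | x
    · exact Or.inr (Or.inr (Or.inl x))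
    · left; rw [x]; exact m11
  have p7 : c 7 ∈ hub c ∨ c 7 = c 0 ∨ c 7 = c 1 ∨ c 7 = c 2 := by
    rcases k7 with x | x
    · exact Or.inr (Or.inr (Or.inr x))
    · left; rw [x]; exact m12
  have p8 : c 8 ∈ hub c ∨ c 8 = c 0 ∨ c 8 = c 1 ∨ c 8 = c 2 := by
    rcases k8 with x | x
    · exact Or.inr (Or.inr (Or.inr x))
    · left; rw [x]; exact m12
  have p13 : c 13 ∈ hub c := by
    rcases k13 with x | x <;> rw [x] <;> assumption
  have p14 : c 14 ∈ hub c := by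
    rcases k14 with x | x <;> rw [x] <;> assumption
  have p15 : c 15 ∈ hub c := by
    rcases k15 with x | x <;> rw [x] <;> assumption
  intro v
  fin_cases v
  · exact Or.inr (Or.inl rfl)
  · exact Or.inr (Or.inr (Or.inl rfl))
  · exact Or.inr (Or.inr (Or.inr rfl))
  · exact p3
  · exact p4
  · exact p5
  · exact p6
  · exact p7
  · exact p8
  · exact Or.inl m9
  · exact Or.inl m10
  · exact Or.inl m11
  · exact Or.inl m12
  · exact Or.inl p13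
  · exact Or.inl p14
  · exact Or.inl p15
  · change c 16 ∈ _ ∨ c 16 = _ ∨ c 16 = _ ∨ c 16 = _; rw [l16]; exact p3
  · change c 17 ∈ _ ∨ c 17 = _ ∨ c 17 = _ ∨ c 17 = _; rw [l17]; exact p4
  · change c 18 ∈ _ ∨ c 18 = _ ∨ c 18 = _ ∨ c 18 = _; rw [l18]; exact p5
  · change c 19 ∈ _ ∨ c 19 = _ ∨ c 19 = _ ∨ c 19 = _; rw [l19]; exact p6
  · change c 20 ∈ _ ∨ c 20 = _ ∨ c 20 = _ ∨ c 20 = _; rw [l20]; exact p7
  · change c 21 ∈ _ ∨ c 21 = _ ∨ c 21 = _ ∨ c 21 = _; rw [l21]; exact p8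
  · change c 22 ∈ _ ∨ c 22 = _ ∨ c 22 = _ ∨ c 22 = _; rw [l22]; exact Or.inl p13
  · change c 23 ∈ _ ∨ c 23 = _ ∨ c 23 = _ ∨ c 23 = _; rw [l23]; exact Or.inl p14
  · change c 24 ∈ _ ∨ c 24 = _ ∨ c 24 = _ ∨ c 24 = _; rw [l24]; exact Or.inl p15

theorem card_bound (c : Fin 25 → Fin k) (hc : Function.Surjective c) (S : Finset (Fin k))
    (u v t : Fin k) (h : ∀ x, c x ∈ S ∨ c x = u ∨ c x = v ∨ c x = t) {m : ℕ}
    (hm : (insert u (insert v (insert t S))).card ≤ m) : k ≤ m := by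
  have : (Finset.univ : Finset (Fin k)) ⊆ insert u (insert v (insert t S)) := by
    intro y _
    obtain ⟨x, rfl⟩ := hc y
    simp only [Finset.mem_insert]
    rcases h x with q | q | q | q
    · exact Or.inr (Or.inr (Or.inr q))
    · exact Or.inl q
    · exact Or.inr (Or.inl q)
    · exact Or.inr (Or.inr (Or.inl q))
  have h2 := Finset.card_le_card this
  rw [Finset.card_univ, Fintype.card_fin] at h2
  omega

end upper

theorem mcG_le : mc G ≤ 5 := by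
  apply mc_le
  rintro k c ⟨hc, h⟩
  rw [valid_iff G nb (fun a b => Iff.rfl) nb_nodup] at h
  have g := cut_le c nb h
  obtain ⟨h1, h2, h3, h4⟩ := hpart c nb (fun _ _ => rfl) g
  have g0 : 2 * (dl (c 0) (c 1) + (dl (c 0) (c 2) + (dl (c 0) (c 3) + (dl (c 0) (c 4) + 0)))) ≤ 4 :=
    g 0
  have g1 : 2 * (dl (c 1) (c 0) + (dl (c 1) (c 2) + (dl (c 1) (c 5) + (dl (c 1) (c 6) + 0)))) ≤ 4 :=
    g 1
  have g2 : 2 * (dl (c 2) (c 0) + (dl (c 2) (c 1) + (dl (c 2) (c 7) + (dl (c 2) (c 8) + 0)))) ≤ 4 :=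
    g 2
  exact card_bound c hc (hub c) (c 0) (c 1) (c 2) h4
    (coreB h1 h2 h3 (by omega) (by omega) (by omega))

theorem mc01_le : mc (G.deleteEdges {s(0, 1)}) ≤ 4 := by
  apply mc_le
  rintro k c ⟨hc, h⟩
  rw [valid_iff _ (del 0 1) (adj_del 0 1) (del_nodup 0 1)] at h
  have g := cut_le c _ h
  obtain ⟨h1, h2, h3, h4⟩ := hpart c (del 0 1) (by decide +kernel) g
  have g0 : 2 * (dl (c 0) (c 2) + (dl (c 0) (c 3) + (dl (c 0) (c 4) + 0))) ≤ 3 := g 0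
  have g1 : 2 * (dl (c 1) (c 2) + (dl (c 1) (c 5) + (dl (c 1) (c 6) + 0))) ≤ 3 := g 1
  have g2 : 2 * (dl (c 2) (c 0) + (dl (c 2) (c 1) + (dl (c 2) (c 7) + (dl (c 2) (c 8) + 0)))) ≤ 4 :=
    g 2
  exact card_bound c hc (hub c) (c 0) (c 1) (c 2) h4
    (coreA h1 h2 h3 (by omega) (by omega) (by omega))

theorem mc02_le : mc (G.deleteEdges {s(0, 2)}) ≤ 4 := by
  apply mc_le
  rintro k c ⟨hc, h⟩
  rw [valid_iff _ (del 0 2) (adj_del 0 2) (del_nodup 0 2)] at h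
  have g := cut_le c _ h
  obtain ⟨h1, h2, h3, h4⟩ := hpart c (del 0 2) (by decide +kernel) g
  have g0 : 2 * (dl (c 0) (c 1) + (dl (c 0) (c 3) + (dl (c 0) (c 4) + 0))) ≤ 3 := g 0
  have g1 : 2 * (dl (c 1) (c 0) + (dl (c 1) (c 2) + (dl (c 1) (c 5) + (dl (c 1) (c 6) + 0)))) ≤ 4 :=
    g 1
  have g2 : 2 * (dl (c 2) (c 1) + (dl (c 2) (c 7) + (dl (c 2) (c 8) + 0))) ≤ 3 := g 2
  refine card_bound c hc (hub c) (c 0) (c 2) (c 1) ?_
    (coreA (x1 := c 3) (x2 := c 4) (y1 := c 7) (y2 := c 8) (z1 := c 5) (z2 := c 6) h1 h2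
      (by omega) (by omega) (by omega) (by omega))
  intro x; rcases h4 x with q | q | q | q <;> simp [q]

theorem mc12_le : mc (G.deleteEdges {s(1, 2)}) ≤ 4 := by
  apply mc_le
  rintro k c ⟨hc, h⟩
  rw [valid_iff _ (del 1 2) (adj_del 1 2) (del_nodup 1 2)] at h
  have g := cut_le c _ h
  obtain ⟨h1, h2, h3, h4⟩ := hpart c (del 1 2) (by decide +kernel) g
  have g0 : 2 * (dl (c 0) (c 1) + (dl (c 0) (c 2) + (dl (c 0) (c 3) + (dl (c 0) (c 4) + 0)))) ≤ 4 :=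
    g 0
  have g1 : 2 * (dl (c 1) (c 0) + (dl (c 1) (c 5) + (dl (c 1) (c 6) + 0))) ≤ 3 := g 1
  have g2 : 2 * (dl (c 2) (c 0) + (dl (c 2) (c 7) + (dl (c 2) (c 8) + 0))) ≤ 3 := g 2
  refine card_bound c hc (hub c) (c 1) (c 2) (c 0) ?_
    (coreA (x1 := c 5) (x2 := c 6) (y1 := c 7) (y2 := c 8) (z1 := c 3) (z2 := c 4) h1 h2
      (by omega) (by omega) (by omega) (by omega))
  intro x; rcases h4 x with q | q | q | q <;> simp [q]

theorem mcG : mc G = 5 := by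
  apply le_antisymm mcG_le
  exact le_mc G col0 ⟨col0_ok.1, (valid_iff G nb (fun a b => Iff.rfl) nb_nodup col0).2 col0_ok.2⟩

theorem mc_del (a b : Fin 25) (h : b ∈ nb a) :
    (a < 3 ∧ b < 3 ∧ mc (G.deleteEdges {s(a, b)}) ≤ 4) ∨
      (¬ (a < 3 ∧ b < 3) ∧ 6 ≤ mc (G.deleteEdges {s(a, b)})) := by
  by_cases hab : a < 3 ∧ b < 3
  · left
    refine ⟨hab.1, hab.2, ?_⟩
    have : (a = 0 ∧ b = 1) ∨ (a = 1 ∧ b = 0) ∨ (a = 0 ∧ b = 2) ∨ (a = 2 ∧ b = 0) ∨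
        (a = 1 ∧ b = 2) ∨ (a = 2 ∧ b = 1) := by
      revert a b; decide +kernel
    rcases this with ⟨rfl, rfl⟩ | ⟨rfl, rfl⟩ | ⟨rfl, rfl⟩ | ⟨rfl, rfl⟩ | ⟨rfl, rfl⟩ | ⟨rfl, rfl⟩
    · exact mc01_le
    · rw [Sym2.eq_swap]; exact mc01_le
    · exact mc02_le
    · rw [Sym2.eq_swap]; exact mc02_le
    · exact mc12_le
    · rw [Sym2.eq_swap]; exact mc12_le
  · right
    refine ⟨hab, ?_⟩
    rcases col_ok a b h with q | q
    · exact absurd q hab
    · exact le_mc _ (col a b) ⟨q.1, (valid_iff _ (del a b) (adj_del a b) (del_nodup a b) _).2 q.2⟩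

theorem edge_mem (a b : Fin 25) : s(a, b) ∈ G.edgeSet ↔ b ∈ nb a := by
  rw [SimpleGraph.mem_edgeSet]; rfl

/-- There is an mc-edge-critical graph (with 25 vertices, `mc = 5`, and at least two edges) with
edges `e` and `f` such that `mc (G - e) < mc G < mc (G - f)`. -/
theorem result : ∃ G : SimpleGraph (Fin 25), EdgeCritical G ∧ 2 ≤ G.edgeSet.ncard ∧
    ∃ e ∈ G.edgeSet, ∃ f ∈ G.edgeSet,
      mc (G.deleteEdges {e}) < mc G ∧ mc G < mc (G.deleteEdges {f}) := by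
  have h01 : s(0, 1) ∈ G.edgeSet := (edge_mem 0 1).2 (by decide)
  have h03 : s(0, 3) ∈ G.edgeSet := (edge_mem 0 3).2 (by decide)
  refine ⟨G, ⟨⟨_, h01⟩, ?_⟩, ?_, s(0, 1), h01, s(0, 3), h03, ?_, ?_⟩
  · intro e he
    induction e using Sym2.ind with
    | h a b =>
      rw [mcG]
      rcases mc_del a b ((edge_mem a b).1 he) with q | q <;> omega
  · have h2 : ({s(0, 1), s(0, 3)} : Set (Sym2 (Fin 25))).ncard = 2 :=
      Set.ncard_pair (by decide)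
    rw [← h2]
    apply Set.ncard_le_ncard _ (Set.toFinite _)
    intro x hx
    rcases hx with rfl | rfl
    · exact h01
    · exact h03
  · rw [mcG]; have := mc01_le; omega
  · rw [mcG]
    rcases mc_del 0 3 (by decide) with q | q
    · exact absurd q.2.1 (by decide)
    · omega

end Pool.Agent.Results.MP_232fda_co.MixedDeletions
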